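import Pool.Agent.Helper89.KS.Goals

/-! KS: FLA, the order statistics fill the line. -/

namespace Pool.Agent.Helper79.KS

open Finset MeasureTheory Filter Topology Pool.Agent.Helper89.GP Pool.Agent.Helper89.KS

noncomputable section

theorem modulus {G : ℝ → ℝ} (hu : UniformContinuous G) {B : ℝ} (hB : ∀ y, |G y| ≤ B) {ε' : ℝ}
    (hε : 0 < ε') : ∃ δ > 0, ∀ y z, |G y - G z| ≤ ε' + 2 * B * ((y - z) / δ) ^ 2 := by
  obtain ⟨δ, hδ, h⟩ := Metric.uniformContinuous_iff.1 hu ε' hε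
  have hB0 : 0 ≤ B := (abs_nonneg _).trans (hB 0)
  refine ⟨δ, hδ, fun y z => ?_⟩
  by_cases hc : dist y z < δ
  · have h1 := h hc
    rw [Real.dist_eq] at h1
    have h2 : 0 ≤ 2 * B * ((y - z) / δ) ^ 2 := by positivity
    linarith
  · have h1 : δ ≤ |y - z| := by rw [← Real.dist_eq]; exact not_lt.1 hc
    have h2 : 1 ≤ ((y - z) / δ) ^ 2 := by
      rw [← sq_abs, abs_div, abs_of_pos hδ]
      have : 1 ≤ |y - z| / δ := by rwa [le_div_iff₀ hδ, one_mul]
      nlinarith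
    have h3 : |G y - G z| ≤ 2 * B := by
      have := abs_sub (G y) (G z)
      linarith [hB y, hB z]
    nlinarith

theorem term {G : ℝ → ℝ} (hc : Continuous G) {S t x b : ℝ} (hS : 0 < S)
    (hb : ∀ y, t / S ≤ y → y ≤ (t + 1) / S → |G x - G y| ≤ b) :
    |G x / S - ∫ y in (t / S)..((t + 1) / S), G y| ≤ b / S := by
  have hle : t / S ≤ (t + 1) / S := div_le_div_of_nonneg_right (by linarith) hS.le
  have hlen : (t + 1) / S - t / S = 1 / S := by ring
  have h1 : G x / S = ∫ _ in (t / S)..((t + 1) / S), G x := by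
    rw [intervalIntegral.integral_const, hlen, smul_eq_mul]
    ring
  rw [h1, ← intervalIntegral.integral_sub intervalIntegrable_const (hc.intervalIntegrable _ _)]
  have h2 := intervalIntegral.norm_integral_le_of_norm_le_const (a := t / S) (b := (t + 1) / S)
    (f := fun y => G x - G y) (C := b) (by
      intro y hy
      rw [Set.uIoc_of_le hle] at hy
      exact hb y hy.1.le hy.2)
  rw [Real.norm_eq_abs, hlen, abs_of_pos (show (0 : ℝ) < 1 / S by positivity)] at h2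
  calc _ ≤ b * (1 / S) := h2
    _ = b / S := by ring

theorem int_split {G : ℝ → ℝ} (hc : Continuous G) {K S : ℝ} (hK : ∀ y, K ≤ |y| → G y = 0)
    (hS : 1 ≤ S) (hKS : K < S) {n : ℕ} (k : Fin n) (h1 : S ^ 2 ≤ (k : ℕ))
    (h2 : S ^ 2 + (k : ℕ) + 1 ≤ n) :
    ∫ y, G y = ∑ j : Fin n, ∫ y in ((((j : ℕ) : ℝ) - (k : ℕ)) / S)..
      ((((j : ℕ) : ℝ) - (k : ℕ) + 1) / S), G y := by
  have hS0 : 0 < S := by linarith
  rw [Fin.sum_univ_eq_sum_range (fun j : ℕ => ∫ y in ((((j : ℕ) : ℝ) - (k : ℕ)) / S)..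
      ((((j : ℕ) : ℝ) - (k : ℕ) + 1) / S), G y) n]
  have h3 := intervalIntegral.sum_integral_adjacent_intervals (f := G) (μ := volume)
    (a := fun j : ℕ => ((j : ℝ) - (k : ℕ)) / S) (n := n)
    (fun j _ => hc.intervalIntegrable _ _)
  have h4 : ∀ j : ℕ, (((j : ℕ) : ℝ) - (k : ℕ) + 1) / S = (((j + 1 : ℕ) : ℝ) - (k : ℕ)) / S := by
    intro j; push_cast; ring
  simp_rw [h4]
  rw [h3]
  symm
  apply intervalIntegral.integral_eq_integral_of_support_subset
  intro y hy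
  have h5 : |y| < K := by
    by_contra hcon
    exact hy (hK y (not_lt.1 hcon))
  rw [abs_lt] at h5
  have h6 : S ≤ ((k : ℕ) : ℝ) / S := by rw [le_div_iff₀ hS0]; nlinarith
  have h7 : S ≤ ((n : ℝ) - (k : ℕ)) / S := by rw [le_div_iff₀ hS0]; nlinarith
  constructor
  · have : (((0 : ℕ) : ℝ) - (k : ℕ)) / S = - (((k : ℕ) : ℝ) / S) := by push_cast; ring
    rw [this]
    linarith
  · linarith

theorem card_J {n : ℕ} (k : Fin n) (L : ℕ) :
    ((univ.filter fun j : Fin n => (j : ℕ) ≤ k + L ∧ (k : ℕ) ≤ j + L).card : ℝ) ≤ 2 * L + 1 := by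
  have h1 : (univ.filter fun j : Fin n => (j : ℕ) ≤ k + L ∧ (k : ℕ) ≤ j + L).card ≤
      (range (2 * L + 1)).card := by
    refine Finset.card_le_card_of_injOn (fun j => (j : ℕ) + L - k) ?_ ?_
    · intro j hj
      have := (mem_filter.1 hj).2
      simp only [coe_range, Set.mem_Iio]
      omega
    · intro i hi j hj hij
      have h1 := (mem_filter.1 hi).2
      have h2 := (mem_filter.1 hj).2
      simp only at hij
      apply Fin.ext
      omega
  rw [card_range] at h1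
  exact_mod_cast h1

theorem int_aff {Ω : Type*} [MeasurableSpace Ω] {μ : Measure Ω} [IsProbabilityMeasure μ]
    {f : Ω → ℝ} (hf : Integrable f μ) (c a d : ℝ) :
    Integrable (fun e => c + a * (f e + 1) / d) μ ∧
      ∫ e, (c + a * (f e + 1) / d) ∂μ = c + a * (∫ e, f e ∂μ + 1) / d := by
  have h1 : Integrable (fun e => f e + 1) μ := hf.add (integrable_const _)
  have h2 : Integrable (fun e => a * (f e + 1)) μ := h1.const_mul a
  have h3 : Integrable (fun e => a * (f e + 1) / d) μ := h2.div_const d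
  refine ⟨(integrable_const c).add h3, ?_⟩
  rw [integral_add (integrable_const c) h3, integral_div, integral_const_mul,
    integral_add hf (integrable_const _)]
  simp

/-- the deviation of the partial sums -/
def AA {n : ℕ} (k j : Fin n) (e : Fin n → ℝ) : ℝ := ps e j - ps e k - ((j : ℕ) - (k : ℕ) : ℝ)

theorem pointwise {G : ℝ → ℝ} (hc : Continuous G) {K S B δ ε' : ℝ}
    (hK : ∀ y, K ≤ |y| → G y = 0) (hB0 : 0 ≤ B) (hδ : 0 < δ)
    (hmod : ∀ y z, |G y - G z| ≤ ε' + 2 * B * ((y - z) / δ) ^ 2)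
    (hS : 1 ≤ S) (hKS : K < S) {n : ℕ} (k : Fin n) (h1 : S ^ 2 ≤ (k : ℕ))
    (h2 : S ^ 2 + (k : ℕ) + 1 ≤ n) (L : ℕ) (hL : K * S ≤ L) (kp km : Fin n)
    (hkp : (kp : ℕ) = k + L) (hkm : (km : ℕ) + L = k) (e : Fin n → ℝ)
    (hmono : ∀ i j : Fin n, i < j → ps e i < ps e j)
    (hp : K * S ≤ ps e kp - ps e k) (hm : ps e km - ps e k ≤ -(K * S)) :
    |(∑ j, G ((ps e j - ps e k) / S)) / S - ∫ y, G y| ≤
      (∑ j ∈ univ.filter fun j : Fin n => (j : ℕ) ≤ k + L ∧ (k : ℕ) ≤ j + L,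
        (ε' + 4 * B * ((AA k j e) ^ 2 + 1) / (S ^ 2 * δ ^ 2))) / S := by
  have hS0 : 0 < S := by linarith
  rw [int_split hc hK hS hKS k h1 h2, Finset.sum_div, ← Finset.sum_sub_distrib, Finset.sum_div,
    Finset.sum_filter]
  refine (Finset.abs_sum_le_sum_abs _ _).trans (Finset.sum_le_sum fun j _ => ?_)
  split_ifs with hj
  · refine term hc hS0 fun y hy1 hy2 => (hmod _ _).trans ?_
    have h3 : |(ps e j - ps e k) / S - y| ≤ (|AA k j e| + 1) / S := by
      have h4 : (ps e j - ps e k) / S - y = AA k j e / S - (y - (((j : ℕ) : ℝ) - (k : ℕ)) / S) := by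
        rw [AA]; ring
      have h5 : |y - (((j : ℕ) : ℝ) - (k : ℕ)) / S| ≤ 1 / S := by
        rw [abs_of_nonneg (by linarith)]
        have : (((j : ℕ) : ℝ) - (k : ℕ) + 1) / S = (((j : ℕ) : ℝ) - (k : ℕ)) / S + 1 / S := by ring
        linarith
      rw [h4, add_div]
      refine (abs_sub _ _).trans ?_
      rw [abs_div, abs_of_pos hS0]
      linarith
    have h4 : (((ps e j - ps e k) / S - y) / δ) ^ 2 ≤ 2 * ((AA k j e) ^ 2 + 1) / (S ^ 2 * δ ^ 2) := by
      rw [div_pow, ← sq_abs ((ps e j - ps e k) / S - y)]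
      have h5 : |(ps e j - ps e k) / S - y| ^ 2 ≤ 2 * ((AA k j e) ^ 2 + 1) / S ^ 2 := by
        calc |(ps e j - ps e k) / S - y| ^ 2 ≤ ((|AA k j e| + 1) / S) ^ 2 :=
              pow_le_pow_left₀ (abs_nonneg _) h3 2
          _ = (|AA k j e| + 1) ^ 2 / S ^ 2 := by rw [div_pow]
          _ ≤ 2 * ((AA k j e) ^ 2 + 1) / S ^ 2 := by
            apply div_le_div_of_nonneg_right _ (by positivity)
            have := sq_abs (AA k j e)
            nlinarith [sq_nonneg (|AA k j e| - 1)]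
      calc |(ps e j - ps e k) / S - y| ^ 2 / δ ^ 2 ≤ (2 * ((AA k j e) ^ 2 + 1) / S ^ 2) / δ ^ 2 := by
            gcongr
        _ = _ := by rw [div_div]
    calc ε' + 2 * B * (((ps e j - ps e k) / S - y) / δ) ^ 2 ≤
          ε' + 2 * B * (2 * ((AA k j e) ^ 2 + 1) / (S ^ 2 * δ ^ 2)) := by gcongr
      _ = _ := by ring
  · rw [not_and_or, not_le, not_le] at hj
    have hz : ∀ y, (((j : ℕ) : ℝ) - (k : ℕ)) / S ≤ y → y ≤ (((j : ℕ) : ℝ) - (k : ℕ) + 1) / S →
        |G ((ps e j - ps e k) / S) - G y| ≤ 0 := by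
      intro y hy1 hy2
      rcases hj with hj | hj
      · have h3 : ps e kp < ps e j := hmono kp j (by rw [Fin.lt_def, hkp]; exact hj)
        have h4 : K ≤ (ps e j - ps e k) / S := by rw [le_div_iff₀ hS0]; linarith
        have h5 : K ≤ y := by
          refine le_trans ?_ hy1
          rw [le_div_iff₀ hS0]
          have : (k : ℝ) + L ≤ (j : ℕ) := by exact_mod_cast hj.le
          linarith
        rw [hK _ (h4.trans (le_abs_self _)), hK _ (h5.trans (le_abs_self _)), sub_zero, abs_zero]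
      · have h3 : ps e j < ps e km := hmono j km (by rw [Fin.lt_def]; omega)
        have h4 : K ≤ -((ps e j - ps e k) / S) := by
          rw [← neg_div, le_div_iff₀ hS0]; linarith
        have h5 : K ≤ -y := by
          have h6 : K ≤ -((((j : ℕ) : ℝ) - (k : ℕ) + 1) / S) := by
            rw [← neg_div, le_div_iff₀ hS0]
            have : ((j : ℕ) : ℝ) + L + 1 ≤ (k : ℕ) := by exact_mod_cast hj
            linarith
          linarith
        rw [hK _ (h4.trans (neg_le_abs _)), hK _ (h5.trans (neg_le_abs _)), sub_zero, abs_zero]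
    have := term hc hS0 hz
    rwa [zero_div] at this

theorem fla (h1 : EnfStmt) (h2 : PsfStmt) : FlaStmt := by
  intro G hc hcs ε hε
  obtain ⟨K0, hK0, hK0'⟩ := hcs.exists_pos_le_norm
  obtain ⟨B0, hB0⟩ := hcs.exists_bound_of_continuous hc
  set K : ℝ := max K0 1 with hKdef
  set B : ℝ := B0 with hBdef
  have hK1 : 1 ≤ K := le_max_right _ _
  have hK : ∀ y, K ≤ |y| → G y = 0 := fun y hy => hK0' y ((le_max_left _ _).trans hy)
  have hB : ∀ y, |G y| ≤ B := fun y => hB0 y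
  have hBn : 0 ≤ B := (abs_nonneg _).trans (hB 0)
  have hu : UniformContinuous G := hcs.uniformContinuous_of_continuous hc
  obtain ⟨δ, hδ, hmod⟩ := modulus hu hB (ε' := ε ^ 2 / (14 * K)) (by positivity)
  refine ⟨max (3 * K + 3) (max (24 / ε) (448 * B * K ^ 2 / (ε ^ 2 * δ ^ 2))), ?_⟩
  intro S hS n k hk1 hk2
  have hS1 : 3 * K + 3 ≤ S := (le_max_left _ _).trans hS
  have hS2 : 24 / ε ≤ S := ((le_max_left _ _).trans (le_max_right _ _)).trans hS
  have hS3 : 448 * B * K ^ 2 / (ε ^ 2 * δ ^ 2) ≤ S :=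
    ((le_max_right _ _).trans (le_max_right _ _)).trans hS
  have hS0 : 0 < S := by linarith
  have hKS : 1 ≤ K * S := by nlinarith
  obtain ⟨hprob, hpos, -, -⟩ := h1 n
  set L : ℕ := ⌈2 * (K * S)⌉₊ with hLdef
  have hL1 : 2 * (K * S) ≤ L := Nat.le_ceil _
  have hL2 : (L : ℝ) ≤ 3 * (K * S) := by
    have := Nat.ceil_lt_add_one (a := 2 * (K * S)) (by positivity)
    linarith
  have hL3 : (L : ℝ) ≤ S ^ 2 := by nlinarith
  have hLk : L ≤ (k : ℕ) := by exact_mod_cast hL3.trans hk1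
  have hLn : (k : ℕ) + L < n := by
    have : (L : ℝ) + (k : ℕ) + 1 ≤ n := by linarith
    have h3 : L + k + 1 ≤ n := by exact_mod_cast this
    omega
  set kp : Fin n := ⟨k + L, hLn⟩ with hkp
  set km : Fin n := ⟨k - L, by omega⟩ with hkm
  set J : Finset (Fin n) := univ.filter fun j : Fin n => (j : ℕ) ≤ k + L ∧ (k : ℕ) ≤ j + L with hJ
  set X : (Fin n → ℝ) → ℝ := fun e => ((AA k kp e) ^ 2 + (AA k km e) ^ 2) / (K * S) ^ 2 +
    (∑ j ∈ J, (ε ^ 2 / (14 * K) + 4 * B * ((AA k j e) ^ 2 + 1) / (S ^ 2 * δ ^ 2))) / (ε * S) with hX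
  have hAi : ∀ j, Integrable (fun e => (AA k j e) ^ 2) (En n) := fun j => (h2 n k j).2.1.1
  have hAv : ∀ j, ∫ e, (AA k j e) ^ 2 ∂En n = |((j : ℕ) - (k : ℕ) : ℝ)| := fun j => (h2 n k j).2.1.2
  have hTi : ∀ j, Integrable (fun e => ε ^ 2 / (14 * K) +
      4 * B * ((AA k j e) ^ 2 + 1) / (S ^ 2 * δ ^ 2)) (En n) := fun j => (int_aff (hAi j) _ _ _).1
  have hTv : ∀ j, ∫ e, (ε ^ 2 / (14 * K) + 4 * B * ((AA k j e) ^ 2 + 1) / (S ^ 2 * δ ^ 2)) ∂En n =
      ε ^ 2 / (14 * K) + 4 * B * (|((j : ℕ) - (k : ℕ) : ℝ)| + 1) / (S ^ 2 * δ ^ 2) := by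
    intro j
    rw [(int_aff (hAi j) _ _ _).2, hAv]
  have hPi : Integrable (fun e => (AA k kp e) ^ 2 + (AA k km e) ^ 2) (En n) := (hAi kp).add (hAi km)
  have hPi' : Integrable (fun e => ((AA k kp e) ^ 2 + (AA k km e) ^ 2) / (K * S) ^ 2) (En n) :=
    hPi.div_const _
  have hQi : Integrable (fun e => (∑ j ∈ J, (ε ^ 2 / (14 * K) +
      4 * B * ((AA k j e) ^ 2 + 1) / (S ^ 2 * δ ^ 2)))) (En n) :=
    integrable_finsetSum _ fun j _ => hTi j
  have hQi' : Integrable (fun e => (∑ j ∈ J, (ε ^ 2 / (14 * K) +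
      4 * B * ((AA k j e) ^ 2 + 1) / (S ^ 2 * δ ^ 2))) / (ε * S)) (En n) := hQi.div_const _
  have hXi : Integrable X (En n) := hPi'.add hQi'
  have hXv : ∫ e, X e ∂En n = (|((kp : ℕ) - (k : ℕ) : ℝ)| + |((km : ℕ) - (k : ℕ) : ℝ)|) / (K * S) ^ 2 +
      (∑ j ∈ J, (ε ^ 2 / (14 * K) + 4 * B * (|((j : ℕ) - (k : ℕ) : ℝ)| + 1) / (S ^ 2 * δ ^ 2))) /
        (ε * S) := by
    have e1 := integral_add hPi' hQi'
    rw [integral_div, integral_div, integral_add (hAi kp) (hAi km),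
      integral_finsetSum _ (fun j _ => hTi j), hAv, hAv] at e1
    simp_rw [hTv] at e1
    exact e1
  have hX0 : ∀ e, 0 ≤ X e := by
    intro e
    have : ∀ j ∈ J, 0 ≤ ε ^ 2 / (14 * K) + 4 * B * ((AA k j e) ^ 2 + 1) / (S ^ 2 * δ ^ 2) := by
      intro j _; positivity
    have h3 := Finset.sum_nonneg this
    rw [hX]
    positivity
  have hae : ∀ᵐ e ∂En n, ε < |(∑ j, G ((ps e j - ps e k) / S)) / S - ∫ y, G y| → 1 ≤ X e := by
    filter_upwards [hpos] with e he hbad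
    have hmono : ∀ i j : Fin n, i < j → ps e i < ps e j := fun i j hij =>
      (h2 n i j).2.2.2 e he hij
    have hsum0 : 0 ≤ (∑ j ∈ J, (ε ^ 2 / (14 * K) +
        4 * B * ((AA k j e) ^ 2 + 1) / (S ^ 2 * δ ^ 2))) := Finset.sum_nonneg fun j _ => by positivity
    have hkpv : ((kp : ℕ) : ℝ) - (k : ℕ) = L := by rw [hkp]; push_cast; ring
    have hkmv : ((km : ℕ) : ℝ) - (k : ℕ) = -L := by
      rw [hkm]
      simp only [Nat.cast_sub hLk]
      ring
    by_cases hp : K * S ≤ ps e kp - ps e k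
    · by_cases hm : ps e km - ps e k ≤ -(K * S)
      · have h3 := pointwise hc hK hBn hδ hmod (by linarith) (by linarith) k hk1 hk2
          L (by linarith) kp km rfl (by simp only [hkm]; omega) e hmono hp hm
        have h4 := hbad.trans_le h3
        have h5 : 1 ≤ (∑ j ∈ J, (ε ^ 2 / (14 * K) +
            4 * B * ((AA k j e) ^ 2 + 1) / (S ^ 2 * δ ^ 2))) / (ε * S) := by
          rw [le_div_iff₀ (by positivity), one_mul]
          rw [lt_div_iff₀ hS0] at h4
          exact h4.le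
        have h6 : 0 ≤ ((AA k kp e) ^ 2 + (AA k km e) ^ 2) / (K * S) ^ 2 := by positivity
        rw [hX]
        linarith
      · have h3 : K * S ≤ |AA k km e| := by
          rw [AA, hkmv]
          refine le_trans ?_ (le_abs_self _)
          linarith
        have h4 : 1 ≤ ((AA k kp e) ^ 2 + (AA k km e) ^ 2) / (K * S) ^ 2 := by
          rw [le_div_iff₀ (by positivity), one_mul, ← sq_abs (AA k km e)]
          nlinarith [sq_nonneg (AA k kp e)]
        have h5 := div_nonneg hsum0 (by positivity : 0 ≤ ε * S)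
        rw [hX]
        linarith
    · have h3 : K * S ≤ |AA k kp e| := by
        rw [AA, hkpv]
        refine le_trans ?_ (neg_le_abs _)
        linarith
      have h4 : 1 ≤ ((AA k kp e) ^ 2 + (AA k km e) ^ 2) / (K * S) ^ 2 := by
        rw [le_div_iff₀ (by positivity), one_mul, ← sq_abs (AA k kp e)]
        nlinarith [sq_nonneg (AA k km e)]
      have h5 := div_nonneg hsum0 (by positivity : 0 ≤ ε * S)
      rw [hX]
      linarith
  have hmarkov := mul_meas_ge_le_integral_of_nonneg (Eventually.of_forall hX0) hXi 1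
  rw [one_mul] at hmarkov
  have hle : (En n).real {e | ε < |(∑ j, G ((ps e j - ps e k) / S)) / S - ∫ y, G y|} ≤
      (En n).real {e | 1 ≤ X e} := by
    unfold Measure.real
    exact ENNReal.toReal_mono (measure_ne_top _ _) (measure_mono_ae hae)
  refine hle.trans (hmarkov.trans ?_)
  rw [hXv]
  have hkpv : ((kp : ℕ) : ℝ) - (k : ℕ) = L := by rw [hkp]; push_cast; ring
  have hkmv : ((km : ℕ) : ℝ) - (k : ℕ) = -L := by
    rw [hkm]
    simp only [Nat.cast_sub hLk]
    ring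
  rw [hkpv, hkmv, abs_neg, Nat.abs_cast]
  have hfirst : ((L : ℝ) + L) / (K * S) ^ 2 ≤ ε / 4 := by
    have h3 : ((L : ℝ) + L) / (K * S) ^ 2 ≤ 6 * (K * S) / (K * S) ^ 2 := by gcongr; linarith
    have h4 : 6 * (K * S) / (K * S) ^ 2 = 6 / (K * S) := by field_simp
    have h5 : 6 / (K * S) ≤ 6 / S := by
      apply div_le_div_of_nonneg_left (by norm_num) hS0
      nlinarith
    have h6 : 6 / S ≤ ε / 4 := by
      rw [div_le_div_iff₀ hS0 (by norm_num)]
      rw [div_le_iff₀ hε] at hS2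
      linarith
    linarith
  have hsecond : (∑ j ∈ J, (ε ^ 2 / (14 * K) +
      4 * B * (|((j : ℕ) - (k : ℕ) : ℝ)| + 1) / (S ^ 2 * δ ^ 2))) / (ε * S) ≤ 3 * ε / 4 := by
    have h3 : ∀ j ∈ J, ε ^ 2 / (14 * K) +
        4 * B * (|((j : ℕ) - (k : ℕ) : ℝ)| + 1) / (S ^ 2 * δ ^ 2) ≤
        ε ^ 2 / (14 * K) + 4 * B * (4 * (K * S)) / (S ^ 2 * δ ^ 2) := by
      intro j hj
      have h4 := (mem_filter.1 hj).2
      have h5 : |((j : ℕ) - (k : ℕ) : ℝ)| ≤ L := by
        rw [abs_le]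
        have h6 : ((j : ℕ) : ℝ) ≤ (k : ℕ) + L := by exact_mod_cast h4.1
        have h7 : ((k : ℕ) : ℝ) ≤ (j : ℕ) + L := by exact_mod_cast h4.2
        constructor <;> linarith
      have h6 : |((j : ℕ) - (k : ℕ) : ℝ)| + 1 ≤ 4 * (K * S) := by linarith
      gcongr
    have h4 := Finset.sum_le_sum h3
    rw [Finset.sum_const, nsmul_eq_mul] at h4
    have h5 : (J.card : ℝ) ≤ 7 * (K * S) := by
      have := card_J k L
      rw [← hJ] at this
      linarith
    have h6 : 0 ≤ ε ^ 2 / (14 * K) + 4 * B * (4 * (K * S)) / (S ^ 2 * δ ^ 2) := by positivity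
    have h7 := h4.trans (mul_le_mul_of_nonneg_right h5 h6)
    rw [div_le_iff₀ (by positivity)]
    refine h7.trans ?_
    have h8 : 7 * (K * S) * (ε ^ 2 / (14 * K)) = ε ^ 2 * S / 2 := by field_simp; ring
    have h9 : 7 * (K * S) * (4 * B * (4 * (K * S)) / (S ^ 2 * δ ^ 2)) =
        112 * B * K ^ 2 / δ ^ 2 := by field_simp; ring
    have h10 : 112 * B * K ^ 2 / δ ^ 2 ≤ ε ^ 2 * S / 4 := by
      rw [div_le_iff₀ (by positivity)] at hS3 ⊢
      nlinarith
    rw [mul_add, h8, h9]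
    nlinarith
  linarith

end

end Pool.Agent.Helper79.KS
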